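import Pool.Agent.Results.MP_a93a41_nt.LargeEnergyDilates

/-!
# Large values of Dirichlet polynomials on almost every dilate of sets of large additive energy

`D(t) = ∑_{n ≤ N} a_n n ^ (-it)`, `|a_n| ≤ 1`. For almost every `x ≥ 1` and all `ε > 0`, for all large `N`: if
`V² ≥ N ^ (1 + ε)` and `|D(t₀ + xqk)| ≥ V` for all `k < K`, where `K ≤ N ^ B` and `1 ≤ q ≤ log₂ N`, then
`K ≤ N ^ ε N² / V²`. The same for arbitrary families of finite sets of integers with large additive energy.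
-/

set_option autoImplicit false

namespace Pool.Agent.Results.MP_a93a41_nt.AlmostEveryDilate

open Finset MeasureTheory Filter

open scoped ENNReal Pointwise

/-- `D(t)`, the sum of `a_n n ^ (-it)` over `1 ≤ n ≤ N` -/
noncomputable def D (N : ℕ) (a : ℕ → ℂ) (t : ℝ) : ℂ :=
  ∑ n ∈ Finset.Icc 1 N, a n * (n : ℂ) ^ (-((t : ℂ) * Complex.I))

/-- For ALL `|a_n| ≤ 1`, ALL real `t₀` and ALL `V > 0` with `V² ≥ N ^ (1 + ε)`: if `|D(t₀ + xs)| ≥ V` for all `s ∈ S`, then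
`|S| ≤ N ^ ε N² / V²`. -/
def LargeBound (S : Finset ℤ) (N : ℕ) (ε x : ℝ) : Prop :=
  ∀ (a : ℕ → ℂ) (t₀ V : ℝ), (∀ n, ‖a n‖ ≤ 1) → 0 < V → (N : ℝ) ^ (1 + ε) ≤ V ^ 2 →
    (∀ s ∈ S, V ≤ ‖D N a (t₀ + x * s)‖) → (S.card : ℝ) ≤ (N : ℝ) ^ ε * ((N : ℝ) ^ 2 / V ^ 2)

lemma asym (B : ℕ) {δ : ℝ} (hδ : 0 < δ) :
    ∀ᶠ N : ℝ in atTop, 9 * ((1 + B * Real.log N) * (1 + Real.log N)) ≤ N ^ δ := by
  have h1 := (isLittleO_log_rpow_atTop (show 0 < δ / 4 by linarith)).bound one_pos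
  have h2 : ∀ᶠ N : ℝ in atTop, 9 * ((1 + B : ℝ) * 2) ≤ N ^ (δ / 2) :=
    (tendsto_rpow_atTop (show 0 < δ / 2 by linarith)).eventually_ge_atTop _
  filter_upwards [h1, h2, eventually_ge_atTop 1] with N g1 g2 g3
  have hN0 : 0 < N := by linarith
  set z : ℝ := N ^ (δ / 4) with hz
  have hz1 : 1 ≤ z := Real.one_le_rpow g3 (by linarith)
  have hlog0 : 0 ≤ Real.log N := Real.log_nonneg g3
  have hlog : Real.log N ≤ z := by
    rw [one_mul, Real.norm_of_nonneg hlog0, Real.norm_of_nonneg (by positivity)] at g1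
    exact g1
  have hB : (0 : ℝ) ≤ B := Nat.cast_nonneg _
  have e1 : 1 + B * Real.log N ≤ (1 + B) * z := by nlinarith
  have e2 : 1 + Real.log N ≤ 2 * z := by linarith
  have e3 : N ^ (δ / 2) = z * z := by rw [hz, ← Real.rpow_add hN0]; congr 1; ring
  have e4 : N ^ δ = N ^ (δ / 2) * (z * z) := by rw [← e3, ← Real.rpow_add hN0]; congr 1; ring
  rw [e4]
  calc 9 * ((1 + B * Real.log N) * (1 + Real.log N)) ≤ 9 * (((1 + B) * z) * (2 * z)) := by
        apply mul_le_mul_of_nonneg_left _ (by norm_num)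
        exact mul_le_mul e1 e2 (by linarith) (by positivity)
    _ = 9 * ((1 + B : ℝ) * 2) * (z * z) := by ring
    _ ≤ _ := mul_le_mul_of_nonneg_right g2 (by positivity)

lemma bc {ι : Type*} (F : ℕ → Finset ι) (w : ℕ → ℝ) (hw : ∀ m, 0 < w m)
    (hs : Summable fun m => ((F m).card : ℝ) * w m) (P : ℕ → ι → ℝ → Prop)
    (h : ∀ m, ∀ A ∈ F m, ∀ Λ : ℝ, 1 ≤ Λ → ∃ E : Set ℝ, volume E ≤ ENNReal.ofReal (w m * Λ) ∧
      ∀ x ∈ Set.Icc Λ (2 * Λ), x ∉ E → P m A x) :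
    ∀ᵐ x : ℝ, 1 ≤ x → ∀ᶠ m : ℕ in atTop, ∀ A ∈ F m, P m A x := by
  classical
  have hex : ∀ (i m : ℕ) (A : ι), ∃ E : Set ℝ, A ∈ F m → (volume E ≤ ENNReal.ofReal (w m * 2 ^ i) ∧
      ∀ x ∈ Set.Icc ((2 : ℝ) ^ i) (2 * 2 ^ i), x ∉ E → P m A x) := by
    intro i m A
    by_cases hA : A ∈ F m
    · obtain ⟨E, hE2, hE3⟩ := h m A hA (2 ^ i) (one_le_pow₀ (by norm_num))
      exact ⟨E, fun _ => ⟨hE2, hE3⟩⟩
    · exact ⟨∅, fun h => absurd h hA⟩
  choose E hE using hex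
  have hall : ∀ᵐ x : ℝ, ∀ i : ℕ, ∀ᶠ m : ℕ in atTop, x ∉ ⋃ A ∈ F m, E i m A := by
    rw [ae_all_iff]
    intro i
    apply ae_eventually_notMem
    have h1 : ∀ m, volume (⋃ A ∈ F m, E i m A) ≤ ENNReal.ofReal ((F m).card * w m * 2 ^ i) := by
      intro m
      refine (measure_biUnion_finset_le _ _).trans ?_
      refine (sum_le_sum fun A hA => (hE i m A hA).1).trans ?_
      rw [sum_const, nsmul_eq_mul, mul_assoc, ENNReal.ofReal_mul (Nat.cast_nonneg _), ENNReal.ofReal_natCast]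
    have h2 : Summable fun m => ((F m).card : ℝ) * w m * 2 ^ i := hs.mul_right _
    have h3 : ∑' m : ℕ, ENNReal.ofReal (((F m).card : ℝ) * w m * 2 ^ i) ≠ ∞ := by
      rw [← ENNReal.ofReal_tsum_of_nonneg (fun m => by have := (hw m).le; positivity) h2]
      exact ENNReal.ofReal_ne_top
    exact ne_top_of_le_ne_top h3 (ENNReal.tsum_le_tsum h1)
  filter_upwards [hall] with x hx hx1
  obtain ⟨i, hi1, hi2⟩ := exists_nat_pow_near hx1 (one_lt_two (α := ℝ))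
  filter_upwards [hx i] with m hm A hA
  refine (hE i m A hA).2 x ⟨hi1, ?_⟩ (fun h => hm (Set.mem_biUnion hA h))
  rw [pow_succ] at hi2
  linarith

/-- the raw bound of `LargeEnergyDilates` -/
def Raw (S : Finset ℤ) (N : ℕ) (K η x : ℝ) : Prop :=
  ∀ (a : ℕ → ℂ) (t₀ V : ℝ), (∀ n, ‖a n‖ ≤ 1) → 0 < V → 2 ^ 45 * K ^ 20 * N ≤ η * V ^ 2 →
    (∀ s ∈ S, V ≤ ‖D N a (t₀ + x * s)‖) →
    (S.card : ℝ) ≤ 2 ^ 34 * K ^ 11 / η * ((N : ℝ) ^ 2 / V ^ 2) * (1 + Real.log (K * S.card)) * (1 + Real.log N)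

lemma raw_large (B : ℕ) {r : ℝ} (hr : 0 < r) :
    ∀ᶠ N : ℕ in atTop, ∀ (S : Finset ℤ) (x : ℝ), S.card ≤ N ^ B →
      Raw S N ((N : ℝ) ^ (r / 50)) (((N : ℝ) ^ (r / 50)) ^ 10)⁻¹ x → LargeBound S N r x := by
  have h1 := tendsto_natCast_atTop_atTop.eventually (asym (B + ⌈r⌉₊) (show 0 < r / 50 by linarith))
  have h2 : ∀ᶠ N : ℕ in atTop, (2 : ℝ) ^ 45 ≤ (N : ℝ) ^ (r / 50) :=
    ((tendsto_rpow_atTop (show 0 < r / 50 by linarith)).comp tendsto_natCast_atTop_atTop).eventually_ge_atTop _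
  filter_upwards [h1, h2, eventually_ge_atTop 1] with N g1 g2 g3 S x hS hraw a t₀ V ha hV hV2 hlarge
  have hNr : (1 : ℝ) ≤ N := by exact_mod_cast g3
  have hN0 : (0 : ℝ) < N := by linarith
  set z : ℝ := (N : ℝ) ^ (r / 50) with hz
  have hz1 : 1 ≤ z := Real.one_le_rpow hNr (by positivity)
  have hz0 : 0 < z := by linarith
  have hzr : z ^ 50 = (N : ℝ) ^ r := by
    rw [hz, ← Real.rpow_natCast, ← Real.rpow_mul hN0.le]
    congr 1
    push_cast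
    ring
  have hVz : (N : ℝ) * z ^ 50 ≤ V ^ 2 := by
    rw [hzr]
    refine le_trans (le_of_eq ?_) hV2
    rw [Real.rpow_add hN0, Real.rpow_one]
  have hcond : 2 ^ 45 * z ^ 20 * N ≤ (z ^ 10)⁻¹ * V ^ 2 := by
    rw [inv_mul_eq_div, le_div_iff₀ (by positivity)]
    have h3 : (2 : ℝ) ^ 45 ≤ z ^ 20 := g2.trans (le_self_pow₀ hz1 (by norm_num))
    calc 2 ^ 45 * z ^ 20 * N * z ^ 10 ≤ z ^ 20 * z ^ 20 * N * z ^ 10 := by gcongr
      _ = N * z ^ 50 := by ring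
      _ ≤ V ^ 2 := hVz
  have h4 := hraw a t₀ V ha hV hcond hlarge
  rcases Nat.eq_zero_or_pos S.card with h0 | hpos
  · rw [h0, Nat.cast_zero]; positivity
  have hSr : (0 : ℝ) < S.card := by exact_mod_cast hpos
  have hlN : 0 ≤ Real.log N := Real.log_nonneg hNr
  have hlog : Real.log (z * S.card) ≤ ((B + ⌈r⌉₊ : ℕ) : ℝ) * Real.log N := by
    rw [Real.log_mul hz0.ne' hSr.ne', hz, Real.log_rpow hN0]
    have h5 : Real.log S.card ≤ B * Real.log N := by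
      rw [← Real.log_pow]
      exact Real.log_le_log hSr (by exact_mod_cast hS)
    have h6 : r / 50 ≤ ⌈r⌉₊ := by
      have := Nat.le_ceil r
      linarith
    push_cast
    nlinarith
  have hlog0 : 0 ≤ Real.log (z * S.card) :=
    Real.log_nonneg (one_le_mul_of_one_le_of_one_le hz1 (by exact_mod_cast hpos))
  have h7 : (1 + Real.log (z * S.card)) * (1 + Real.log N) ≤ z := by
    have h8 : (1 + Real.log (z * S.card)) * (1 + Real.log N) ≤
        (1 + ((B + ⌈r⌉₊ : ℕ) : ℝ) * Real.log N) * (1 + Real.log N) :=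
      mul_le_mul_of_nonneg_right (by linarith) (by linarith)
    have h9 : 0 ≤ (1 + ((B + ⌈r⌉₊ : ℕ) : ℝ) * Real.log N) * (1 + Real.log N) := by positivity
    linarith
  calc (S.card : ℝ) ≤ 2 ^ 34 * z ^ 11 / (z ^ 10)⁻¹ * ((N : ℝ) ^ 2 / V ^ 2) * (1 + Real.log (z * S.card)) *
        (1 + Real.log N) := h4
    _ = (2 ^ 34 * z ^ 21 * ((1 + Real.log (z * S.card)) * (1 + Real.log N))) * ((N : ℝ) ^ 2 / V ^ 2) := by
        rw [div_inv_eq_mul]
        ring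
    _ ≤ z ^ 50 * ((N : ℝ) ^ 2 / V ^ 2) := by
        apply mul_le_mul_of_nonneg_right _ (by positivity)
        calc 2 ^ 34 * z ^ 21 * ((1 + Real.log (z * S.card)) * (1 + Real.log N))
            ≤ z * z ^ 21 * z := by
              apply mul_le_mul _ h7 (by positivity) (by positivity)
              apply mul_le_mul_of_nonneg_right _ (by positivity)
              refine le_trans (by norm_num) g2
          _ = z ^ 23 := by ring
          _ ≤ z ^ 50 := pow_le_pow_right₀ hz1 (by norm_num)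
    _ = _ := by rw [hzr]

lemma mono {S : Finset ℤ} {N : ℕ} (hN : 1 ≤ N) {r ε x : ℝ} (h : r ≤ ε) (hb : LargeBound S N r x) :
    LargeBound S N ε x := by
  have hNr : (1 : ℝ) ≤ N := by exact_mod_cast hN
  intro a t₀ V ha hV hV2 hl
  refine (hb a t₀ V ha hV (le_trans (Real.rpow_le_rpow_of_exponent_le hNr (by linarith)) hV2) hl).trans ?_
  exact mul_le_mul_of_nonneg_right (Real.rpow_le_rpow_of_exponent_le hNr h) (by positivity)

lemma part1 (B : ℕ) (F : ℕ → Finset (Finset ℤ)) (hF : ∀ m, ∀ S ∈ F m, S.card ≤ (2 ^ m) ^ B)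
    (hs : ∀ δ : ℝ, 0 < δ → Summable fun m : ℕ => ((F m).card : ℝ) * (2 : ℝ) ^ (-(δ * m))) :
    ∀ᵐ x : ℝ, 1 ≤ x → ∀ ε : ℝ, 0 < ε → ∀ᶠ m : ℕ in atTop, ∀ S ∈ F m,
      (S.card : ℝ) ^ 3 ≤ (2 : ℝ) ^ (ε / 100 * m) * (S.addEnergy S : ℕ) → LargeBound S (2 ^ m) ε x := by
  have hpow : ∀ (m : ℕ) (r : ℝ), (((2 ^ m : ℕ) : ℝ)) ^ (r / 50) = (2 : ℝ) ^ (r / 50 * m) := by
    intro m r
    push_cast
    rw [← Real.rpow_natCast 2 m, ← Real.rpow_mul (by norm_num), mul_comm]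
  have hall : ∀ᵐ x : ℝ, ∀ r : ℚ, 1 ≤ x → (0 : ℝ) < r → ∀ᶠ m : ℕ in atTop, ∀ S ∈ F m,
      ((S.card : ℝ) ^ 3 ≤ (2 : ℝ) ^ ((r : ℝ) / 50 * m) * (S.addEnergy S : ℕ) →
        Raw S (2 ^ m) (((2 ^ m : ℕ) : ℝ) ^ ((r : ℝ) / 50)) ((((2 ^ m : ℕ) : ℝ) ^ ((r : ℝ) / 50)) ^ 10)⁻¹ x) := by
    rw [ae_all_iff]
    intro r
    by_cases hr : (0 : ℝ) < r
    swap
    · exact Eventually.of_forall fun x _ h => absurd h hr
    have hw : ∀ m : ℕ, ((((2 ^ m : ℕ) : ℝ) ^ ((r : ℝ) / 50)) ^ 10)⁻¹ = (2 : ℝ) ^ (-((r : ℝ) / 5 * m)) := by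
      intro m
      rw [hpow, Real.rpow_neg (by norm_num), ← Real.rpow_natCast _ 10, ← Real.rpow_mul (by norm_num)]
      congr 2
      push_cast
      ring
    have h1 := bc F (fun m => ((((2 ^ m : ℕ) : ℝ) ^ ((r : ℝ) / 50)) ^ 10)⁻¹) (fun m => by positivity)
      (by simp only [hw]; exact hs _ (by positivity))
      (fun m S x => ((S.card : ℝ) ^ 3 ≤ (2 : ℝ) ^ ((r : ℝ) / 50 * m) * (S.addEnergy S : ℕ) →
        Raw S (2 ^ m) (((2 ^ m : ℕ) : ℝ) ^ ((r : ℝ) / 50)) ((((2 ^ m : ℕ) : ℝ) ^ ((r : ℝ) / 50)) ^ 10)⁻¹ x))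
      (fun m S hS Λ hΛ => by
        by_cases hE : (S.card : ℝ) ^ 3 ≤ (2 : ℝ) ^ ((r : ℝ) / 50 * m) * (S.addEnergy S : ℕ)
        · obtain ⟨E, _, hE2, hE3⟩ := Pool.Agent.Results.MP_a93a41_nt.LargeEnergyDilates.result (2 ^ m)
            Nat.one_le_two_pow S (((2 ^ m : ℕ) : ℝ) ^ ((r : ℝ) / 50)) Λ
            ((((2 ^ m : ℕ) : ℝ) ^ ((r : ℝ) / 50)) ^ 10)⁻¹
            (Real.one_le_rpow (by exact_mod_cast Nat.one_le_two_pow) (by positivity)) hΛ (by positivity)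
            (by rw [hpow]; exact hE)
          exact ⟨E, hE2, fun x hx hxE _ => hE3 x hx hxE⟩
        · exact ⟨∅, by simp, fun x _ _ h => absurd h hE⟩)
    filter_upwards [h1] with x hx hx1 _
    exact hx hx1
  filter_upwards [hall] with x hx hx1 ε hε
  obtain ⟨r, hr1, hr2⟩ := exists_rat_btwn (show ε / 2 < ε by linarith)
  have hr0 : (0 : ℝ) < r := by linarith
  have ht : Tendsto (fun m : ℕ => 2 ^ m) atTop (atTop : Filter ℕ) := tendsto_pow_atTop_atTop_of_one_lt one_lt_two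
  filter_upwards [hx r hx1 hr0, ht.eventually (raw_large B hr0)] with m hm g1 S hS hE
  refine mono Nat.one_le_two_pow hr2.le (g1 S x (hF m S hS) (hm S hS (hE.trans ?_)))
  apply mul_le_mul_of_nonneg_right _ (Nat.cast_nonneg _)
  apply Real.rpow_le_rpow_of_exponent_le (by norm_num)
  have : (0 : ℝ) ≤ m := Nat.cast_nonneg _
  nlinarith

/-- the arithmetic progression `{0, q, …, (K - 1) q}` -/
def AP (q K : ℕ) : Finset ℤ := (range K).image fun k => ((q * k : ℕ) : ℤ)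

lemma card_AP {q : ℕ} (hq : 1 ≤ q) (K : ℕ) : (AP q K).card = K := by
  unfold AP
  rw [card_image_of_injective, card_range]
  intro k l hkl
  simp only [Nat.cast_inj] at hkl
  exact Nat.eq_of_mul_eq_mul_left hq hkl

lemma energy_AP {q : ℕ} (hq : 1 ≤ q) {K : ℕ} (hK : 1 ≤ K) :
    ((AP q K).card : ℝ) ^ 3 ≤ 2 * (((AP q K).addEnergy (AP q K) : ℕ) : ℝ) := by
  have h1 := le_card_add_mul_addEnergy (AP q K) (AP q K)
  have h2 : AP q K + AP q K ⊆ AP q (2 * K) := by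
    intro x hx
    obtain ⟨y, hy, z, hz, rfl⟩ := Finset.mem_add.1 hx
    unfold AP at *
    simp only [mem_image, mem_range] at *
    obtain ⟨k, hk, rfl⟩ := hy
    obtain ⟨l, hl, rfl⟩ := hz
    exact ⟨k + l, by omega, by push_cast; ring⟩
  have h3 := (card_le_card h2).trans_eq (card_AP hq (2 * K))
  rw [card_AP hq] at h1 ⊢
  have h4 : K ^ 2 * K ^ 2 ≤ 2 * K * (AP q K).addEnergy (AP q K) := h1.trans (Nat.mul_le_mul_right _ h3)
  have h5 : K ^ 3 ≤ 2 * (AP q K).addEnergy (AP q K) := by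
    apply Nat.le_of_mul_le_mul_left _ (show 0 < K by omega)
    calc K * K ^ 3 = K ^ 2 * K ^ 2 := by ring
      _ ≤ _ := h4
      _ = _ := by ring
  exact_mod_cast h5

lemma D_ext {N M : ℕ} (h : N ≤ M) (a : ℕ → ℂ) (y : ℝ) :
    D M (fun n => if n ≤ N then a n else 0) y = D N a y := by
  unfold D
  rw [← sum_subset (Icc_subset_Icc_right h) (fun n hn hn' => ?_)]
  · refine sum_congr rfl fun n hn => ?_
    simp only
    rw [if_pos (mem_Icc.1 hn).2]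
  · simp only
    rw [if_neg, zero_mul]
    intro hle
    exact hn' (mem_Icc.2 ⟨(mem_Icc.1 hn).1, hle⟩)

/-- **Theorem.** Let `B` be a natural number. (1) For `m ∈ ℕ` let `F m` be a finite set of finite sets `S` of integers with
`|S| ≤ (2 ^ m) ^ B`, such that `∑ |F m| 2 ^ (-δm)` is finite for all `δ > 0`. For almost every `x ≥ 1`, for all `ε > 0` and
all large `m`, with `N = 2 ^ m`: every `S ∈ F m` whose additive energy `E(S)` satisfies `|S|³ ≤ N ^ (ε / 100) E(S)` satisfies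
`LargeBound S N ε x`. (2) For almost every `x ≥ 1`, for all `ε > 0` and all large `N`: `LargeBound S N ε x` holds for all
progressions `S = {0, q, …, (K - 1) q}` with `1 ≤ q ≤ log₂ N` and `K ≤ N ^ B`. -/
theorem result (B : ℕ) :
    (∀ F : ℕ → Finset (Finset ℤ), (∀ m, ∀ S ∈ F m, S.card ≤ (2 ^ m) ^ B) →
      (∀ δ : ℝ, 0 < δ → Summable fun m : ℕ => ((F m).card : ℝ) * (2 : ℝ) ^ (-(δ * m))) →
      ∀ᵐ x : ℝ, 1 ≤ x → ∀ ε : ℝ, 0 < ε → ∀ᶠ m : ℕ in atTop, ∀ S ∈ F m,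
        (S.card : ℝ) ^ 3 ≤ (2 : ℝ) ^ (ε / 100 * m) * (S.addEnergy S : ℕ) → LargeBound S (2 ^ m) ε x) ∧
    (∀ᵐ x : ℝ, 1 ≤ x → ∀ ε : ℝ, 0 < ε → ∀ᶠ N : ℕ in atTop, ∀ q K : ℕ, 1 ≤ q → q ≤ Nat.log 2 N → K ≤ N ^ B →
        LargeBound (AP q K) N ε x) := by
  classical
  refine ⟨part1 B, ?_⟩
  set F : ℕ → Finset (Finset ℤ) := fun m =>
    (Icc 1 m ×ˢ range (B * m + 1)).image (fun p => AP p.1 (2 ^ p.2)) with hFdef
  have hF : ∀ m, ∀ S ∈ F m, S.card ≤ (2 ^ m) ^ B := by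
    intro m S hS
    rw [hFdef] at hS
    simp only [mem_image, mem_product, mem_range, mem_Icc] at hS
    obtain ⟨⟨q, i⟩, ⟨⟨hq, _⟩, hi⟩, rfl⟩ := hS
    rw [card_AP hq, ← pow_mul]
    exact Nat.pow_le_pow_right (by norm_num) (by rw [mul_comm m B]; omega)
  have hsum : ∀ δ : ℝ, 0 < δ → Summable fun m : ℕ => ((F m).card : ℝ) * (2 : ℝ) ^ (-(δ * m)) := by
    intro δ hδ
    set r : ℝ := (2 : ℝ) ^ (-δ) with hr
    have hr0 : 0 < r := by positivity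
    have hr1 : r < 1 := Real.rpow_lt_one_of_one_lt_of_neg one_lt_two (by linarith)
    have hrn : ‖r‖ < 1 := by rw [Real.norm_of_nonneg hr0.le]; exact hr1
    have h1 : Summable fun m : ℕ => (m : ℝ) ^ 1 * r ^ m := summable_pow_mul_geometric_of_norm_lt_one 1 hrn
    have h2 : Summable fun m : ℕ => (m : ℝ) ^ 2 * r ^ m := summable_pow_mul_geometric_of_norm_lt_one 2 hrn
    refine Summable.of_nonneg_of_le (fun m => by positivity) (fun m => ?_) ((h2.mul_left (B : ℝ)).add h1)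
    have h3 : (2 : ℝ) ^ (-(δ * m)) = r ^ m := by
      rw [hr, ← Real.rpow_natCast, ← Real.rpow_mul (by norm_num)]
      congr 1
      ring
    rw [h3]
    have h4 : ((F m).card : ℝ) ≤ m * (B * m + 1) := by
      have := (card_image_le (s := Icc 1 m ×ˢ range (B * m + 1)) (f := fun p => AP p.1 (2 ^ p.2)))
      rw [card_product, card_range, Nat.card_Icc, Nat.add_sub_cancel] at this
      exact_mod_cast this
    calc ((F m).card : ℝ) * r ^ m ≤ (m * (B * m + 1)) * r ^ m := mul_le_mul_of_nonneg_right h4 (by positivity)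
      _ = _ := by ring
  filter_upwards [part1 B F hF hsum] with x hx hx1 ε hε
  obtain ⟨m₀, hm₀⟩ := eventually_atTop.1 (hx hx1 (ε / 2) (by linarith))
  have hcomp : ∀ᶠ N : ℕ in atTop, 8 * (2 : ℝ) ^ (1 + ε / 2) ≤ (N : ℝ) ^ (ε / 2) :=
    ((tendsto_rpow_atTop (show 0 < ε / 2 by linarith)).comp tendsto_natCast_atTop_atTop).eventually_ge_atTop _
  have hcomp2 : ∀ᶠ N : ℕ in atTop, (2 : ℝ) ≤ (N : ℝ) ^ (ε / 200) :=
    ((tendsto_rpow_atTop (show 0 < ε / 200 by linarith)).comp tendsto_natCast_atTop_atTop).eventually_ge_atTop _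
  filter_upwards [hcomp, hcomp2, eventually_ge_atTop (2 ^ m₀), eventually_ge_atTop 2] with
    N g1 g0 g2 g3 q K hq hqN hK a t₀ V ha hV hV2 hlarge
  rcases Nat.eq_zero_or_pos K with h0 | hKpos
  · subst h0
    rw [card_AP hq, Nat.cast_zero]
    positivity
  set m : ℕ := Nat.clog 2 N with hm
  set i : ℕ := Nat.log 2 K with hi
  have hNm : N ≤ 2 ^ m := Nat.le_pow_clog one_lt_two N
  have hmN : 2 ^ m ≤ 2 * N := by
    have h1 : 2 ^ (m - 1) < N := Nat.pow_pred_clog_lt_self one_lt_two (by omega)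
    have h2 : 0 < m := Nat.clog_pos one_lt_two g3
    have h3 : 2 ^ m = 2 * 2 ^ (m - 1) := by
      rw [← pow_succ']
      congr 1
      omega
    omega
  have hKi : 2 ^ i ≤ K := Nat.pow_log_le_self 2 (by omega)
  have hiK : K < 2 * 2 ^ i := by
    have := Nat.lt_pow_succ_log_self one_lt_two K
    rw [← hi, Nat.succ_eq_add_one, pow_succ] at this
    omega
  have him : i ≤ B * m := by
    have h1 : 2 ^ i ≤ 2 ^ (B * m) := by
      calc 2 ^ i ≤ K := hKi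
        _ ≤ N ^ B := hK
        _ ≤ (2 ^ m) ^ B := Nat.pow_le_pow_left hNm B
        _ = 2 ^ (B * m) := by rw [← pow_mul, mul_comm]
    exact (Nat.pow_le_pow_iff_right one_lt_two).1 h1
  have hmm : m₀ ≤ m := by
    have h1 : 2 ^ m₀ ≤ 2 ^ m := g2.trans hNm
    exact (Nat.pow_le_pow_iff_right one_lt_two).1 h1
  have hqm : q ≤ m := by
    refine hqN.trans ?_
    have h1 : 2 ^ Nat.log 2 N ≤ 2 ^ m := (Nat.pow_log_le_self 2 (by omega)).trans hNm
    exact (Nat.pow_le_pow_iff_right one_lt_two).1 h1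
  have hmem : AP q (2 ^ i) ∈ F m := by
    rw [hFdef]
    exact mem_image.2 ⟨(q, i), mem_product.2 ⟨mem_Icc.2 ⟨hq, hqm⟩, mem_range.2 (by omega)⟩, rfl⟩
  have hN0 : (0 : ℝ) < N := by exact_mod_cast (by omega : 0 < N)
  have hN1 : (1 : ℝ) ≤ N := by exact_mod_cast (by omega : 1 ≤ N)
  have b0 : (0 : ℝ) < ((2 ^ m : ℕ) : ℝ) := by positivity
  have b1 : ((2 ^ m : ℕ) : ℝ) ≤ 2 * N := by exact_mod_cast hmN
  have b2 : (N : ℝ) ≤ ((2 ^ m : ℕ) : ℝ) := by exact_mod_cast hNm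
  have hen : ((AP q (2 ^ i)).card : ℝ) ^ 3 ≤
      (2 : ℝ) ^ (ε / 2 / 100 * m) * (((AP q (2 ^ i)).addEnergy (AP q (2 ^ i)) : ℕ) : ℝ) := by
    refine (energy_AP hq Nat.one_le_two_pow).trans ?_
    apply mul_le_mul_of_nonneg_right _ (Nat.cast_nonneg _)
    have h1 : (2 : ℝ) ^ (ε / 2 / 100 * m) = ((2 ^ m : ℕ) : ℝ) ^ (ε / 200) := by
      push_cast
      rw [← Real.rpow_natCast 2 m, ← Real.rpow_mul (by norm_num)]
      congr 1
      ring
    rw [h1]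
    exact g0.trans (Real.rpow_le_rpow hN0.le b2 (by positivity))
  have ha'1 : ∀ n, ‖(fun n => if n ≤ N then a n else 0 : ℕ → ℂ) n‖ ≤ 1 := by
    intro n
    simp only
    split_ifs
    · exact ha n
    · simp
  have hsub : AP q (2 ^ i) ⊆ AP q K := image_subset_image (range_subset_range.2 hKi)
  have hVcond : ((2 ^ m : ℕ) : ℝ) ^ (1 + ε / 2) ≤ V ^ 2 := by
    refine le_trans ?_ hV2
    calc ((2 ^ m : ℕ) : ℝ) ^ (1 + ε / 2) ≤ (2 * (N : ℝ)) ^ (1 + ε / 2) :=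
          Real.rpow_le_rpow b0.le b1 (by linarith)
      _ = (2 : ℝ) ^ (1 + ε / 2) * (N : ℝ) ^ (1 + ε / 2) := Real.mul_rpow (by norm_num) hN0.le
      _ ≤ (N : ℝ) ^ (ε / 2) * (N : ℝ) ^ (1 + ε / 2) := by
          apply mul_le_mul_of_nonneg_right _ (by positivity)
          have : (0 : ℝ) < (2 : ℝ) ^ (1 + ε / 2) := by positivity
          linarith
      _ = (N : ℝ) ^ (1 + ε) := by
          rw [← Real.rpow_add hN0]
          congr 1
          ring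
  have hmain := hm₀ m hmm _ hmem hen _ t₀ V ha'1 hV hVcond (fun s hs => by
    rw [D_ext hNm]
    exact hlarge s (hsub hs))
  rw [card_AP hq] at hmain ⊢
  have hK2 : (K : ℝ) ≤ 2 * ((2 ^ i : ℕ) : ℝ) := by exact_mod_cast hiK.le
  have hV2pos : 0 < V ^ 2 := by positivity
  calc (K : ℝ) ≤ 2 * (((2 ^ m : ℕ) : ℝ) ^ (ε / 2) * (((2 ^ m : ℕ) : ℝ) ^ 2 / V ^ 2)) := by linarith
    _ ≤ 2 * ((2 * (N : ℝ)) ^ (ε / 2) * ((2 * (N : ℝ)) ^ 2 / V ^ 2)) := by gcongr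
    _ = (8 * (2 : ℝ) ^ (ε / 2)) * ((N : ℝ) ^ (ε / 2) * ((N : ℝ) ^ 2 / V ^ 2)) := by
        rw [Real.mul_rpow (by norm_num) hN0.le]
        ring
    _ ≤ (N : ℝ) ^ (ε / 2) * ((N : ℝ) ^ (ε / 2) * ((N : ℝ) ^ 2 / V ^ 2)) := by
        apply mul_le_mul_of_nonneg_right _ (by positivity)
        refine le_trans ?_ g1
        apply mul_le_mul_of_nonneg_left _ (by norm_num)
        exact Real.rpow_le_rpow_of_exponent_le (by norm_num) (by linarith)
    _ = (N : ℝ) ^ ε * ((N : ℝ) ^ 2 / V ^ 2) := by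
        have e1 : (N : ℝ) ^ ε = (N : ℝ) ^ (ε / 2) * (N : ℝ) ^ (ε / 2) := by
          rw [← Real.rpow_add hN0]
          congr 1
          ring
        rw [e1]
        ring

end Pool.Agent.Results.MP_a93a41_nt.AlmostEveryDilate
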