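import Pool.Agent.V11290.VW.D4

/-!
# Large values of Dirichlet polynomials at typical dilates of arbitrary well-spaced sets, for measures with Fourier decay

Let `μ` be ANY probability measure on the line with `|μ^(ξ)| ≤ C |ξ| ^ (-σ)`, where `σ > 0` may be arbitrarily small (such
`μ` live on null sets of arbitrarily small dimension). For arbitrary sets `S j` of real numbers with distances at least
`N ^ (1 / σ)`, `N = N j`, and `μ`-almost every `α`, ALL Dirichlet polynomials `D` of length `N` with coefficients bounded by `1`,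
all translates `τ` and all but finitely many `j`: if `|D| ≥ V` on `τ + α S j`, where `V ≥ N ^ (3/4 + ε)`, then `#S j ≤ 2 N² / V²`,
the bound of the conjecture. This follows from a large sieve inequality for the dilated sets.
-/

set_option autoImplicit false

namespace Pool.Agent.Results.MP_a93a41_nt.FourierDecayDilates

open Finset MeasureTheory

/-- the Dirichlet polynomial `D(i t) = ∑_{n ≤ N} a_n n ^ (-i t)` -/
noncomputable def D (N : ℕ) (a : ℕ → ℂ) (t : ℝ) : ℂ := ∑ n ∈ Icc 1 N, a n * (n : ℂ) ^ (-((t : ℂ) * Complex.I))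

/-- **Theorem.** Let `μ` be a probability measure on the line with `|μ^(ξ)| ≤ C |ξ| ^ (-σ)` for `|ξ| ≥ 1`, `0 < σ < 1`, and
`K = 8 (|C| + 1) / (1 - σ) ^ 2`.

(1) Let `S` be a finite set of `R` real numbers with distances at least `Δ > 0`, and `M > 0`. Outside a set of `α` of `μ`-measure
at most `1 / M`, for ALL complex numbers `a_1, ..., a_N` and all real `τ`,
`∑_{s ∈ S} |D(i (τ + α s))|² ≤ (N + √M (R √N + √K N Δ ^ (-σ/2) R ^ (1 - σ/2))) ∑ |a_n|²`.

(2) For every `j` in a set `J` let `N j ≥ 1` be an integer and `S j` a finite set of real numbers with distances at least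
`(N j) ^ (1 / σ)`, such that the sum of the `(N j) ^ (-κ)` converges for all `κ > 0`. For `μ`-almost every `α`, all `ε > 0` and all
but finitely many `j`: for ALL complex `a_1, ..., a_N`, `N = N j`, and all real `τ`,
`∑_{s ∈ S j} |D(i (τ + α s))|² ≤ (N + #S j · N ^ (1/2 + ε)) ∑ |a_n|²`.

(3) In (2), moreover: if `|a_n| ≤ 1` for all `n`, `V² ≥ 2 N ^ (3/2 + ε)` and `|D(i (τ + α s))| ≥ V` for all `s ∈ S j`, then
`#S j ≤ 2 N² / V²`. -/
theorem result (μ : Measure ℝ) [IsProbabilityMeasure μ] (C σ : ℝ) (hσ0 : 0 < σ) (hσ1 : σ < 1)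
    (hdec : ∀ ξ : ℝ, 1 ≤ |ξ| → ‖charFun μ ξ‖ ≤ C * |ξ| ^ (-σ)) :
    (∀ (N : ℕ) (S : Finset ℝ) (Δ M : ℝ), 0 < Δ → 0 < M → (∀ x ∈ S, ∀ y ∈ S, x ≠ y → Δ ≤ |x - y|) →
      μ {α | ¬ ∀ (τ : ℝ) (a : ℕ → ℂ), ∑ s ∈ S, ‖D N a (τ + α * s)‖ ^ 2 ≤
        (N + √M * (S.card * √N + √(8 * (|C| + 1) / (1 - σ) ^ 2) * N * Δ ^ (-(σ / 2)) * (S.card : ℝ) ^ (1 - σ / 2))) *
          ∑ n ∈ Icc 1 N, ‖a n‖ ^ 2} ≤ ENNReal.ofReal (1 / M)) ∧
    ∀ (J : Type) (N : J → ℕ) (S : J → Finset ℝ), (∀ j, 1 ≤ N j) →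
      (∀ j, ∀ x ∈ S j, ∀ y ∈ S j, x ≠ y → (N j : ℝ) ^ (1 / σ) ≤ |x - y|) →
      (∀ κ : ℝ, 0 < κ → Summable fun j => (N j : ℝ) ^ (-κ)) →
      ∀ᵐ α ∂μ, ∀ ε : ℝ, 0 < ε →
        {j | ¬ ((∀ (τ : ℝ) (a : ℕ → ℂ), ∑ s ∈ S j, ‖D (N j) a (τ + α * s)‖ ^ 2 ≤
            (N j + (S j).card * (N j : ℝ) ^ (1 / 2 + ε)) * ∑ n ∈ Icc 1 (N j), ‖a n‖ ^ 2) ∧
          ∀ (τ : ℝ) (a : ℕ → ℂ) (V : ℝ), (∀ n, ‖a n‖ ≤ 1) → 0 < V → 2 * (N j : ℝ) ^ (3 / 2 + ε) ≤ V ^ 2 →
            (∀ s ∈ S j, V ≤ ‖D (N j) a (τ + α * s)‖) → ((S j).card : ℝ) ≤ 2 * (N j : ℝ) ^ 2 / V ^ 2)}.Finite := by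
  refine ⟨fun N S Δ M hΔ hM hsep => ?_, fun J N S hN hsep hsum => ?_⟩
  · refine le_trans (measure_mono ?_) (Pool.Agent.V11290.VW.hs_meas μ C σ hσ0 hσ1 hdec N S Δ hΔ hsep M hM)
    intro α hα hcon
    apply hα
    intro τ a
    refine (Pool.Agent.V11290.VW.dual_ls N S α τ a).trans ?_
    apply mul_le_mul_of_nonneg_right _ (sum_nonneg fun n _ => by positivity)
    have hK : Pool.Agent.V11290.VW.K₀ C σ = 8 * (|C| + 1) / (1 - σ) ^ 2 := rfl
    rw [hK] at hcon
    linarith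
  · have hcofin : ∀ X : ℝ, {j | (N j : ℝ) < X}.Finite := by
      intro X
      rcases le_or_gt X 0 with hX | hX
      · convert Set.finite_empty
        ext j
        rw [Set.mem_ofPred_eq]
        simp only [Set.mem_empty_iff_false, iff_false, not_lt]
        exact hX.trans (Nat.cast_nonneg _)
      have h3 := (hsum 1 one_pos).tendsto_cofinite_zero
      have h4 := h3.eventually (gt_mem_nhds (show (0 : ℝ) < X ^ (-(1 : ℝ)) by positivity))
      rw [Filter.eventually_cofinite] at h4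
      refine h4.subset ?_
      intro j hj
      rw [Set.mem_ofPred_eq] at hj ⊢
      rw [not_lt]
      have hNj : (0 : ℝ) < N j := by exact_mod_cast hN j
      exact Real.rpow_le_rpow_of_nonpos hNj hj.le (by norm_num)
    have hcount : Countable J := by
      have h3 := (hsum 1 one_pos).countable_support
      have h4 : Function.support (fun j => (N j : ℝ) ^ (-(1 : ℝ))) = Set.univ := by
        ext j
        simp only [Function.mem_support, Set.mem_univ, iff_true]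
        have : (0 : ℝ) < N j := by exact_mod_cast hN j
        positivity
      rw [h4] at h3
      exact Set.countable_univ_iff.1 h3
    have key : ∀ᵐ α ∂μ, ∀ i : ℕ, {j | ¬ √(Pool.Agent.V11290.VW.HS2 (N j) (S j) α) ≤ √((N j : ℝ) ^ (1 / ((i : ℝ) + 1))) *
        ((S j).card * √(N j) + √(Pool.Agent.V11290.VW.K₀ C σ) * N j * ((N j : ℝ) ^ (1 / σ)) ^ (-(σ / 2)) *
          ((S j).card : ℝ) ^ (1 - σ / 2))}.Finite := by
      rw [ae_all_iff]
      intro i
      obtain ⟨T, hT⟩ : ∃ T : J → Set ℝ, T = fun j => {α | ¬ √(Pool.Agent.V11290.VW.HS2 (N j) (S j) α) ≤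
        √((N j : ℝ) ^ (1 / ((i : ℝ) + 1))) *
        ((S j).card * √(N j) + √(Pool.Agent.V11290.VW.K₀ C σ) * N j * ((N j : ℝ) ^ (1 / σ)) ^ (-(σ / 2)) *
          ((S j).card : ℝ) ^ (1 - σ / 2))} := ⟨_, rfl⟩
      have hi : (0 : ℝ) < 1 / ((i : ℝ) + 1) := by positivity
      have hbound : ∀ j, μ (T j) ≤ ENNReal.ofReal ((N j : ℝ) ^ (-(1 / ((i : ℝ) + 1)))) := by
        intro j
        have hNj : (0 : ℝ) < N j := by exact_mod_cast hN j
        rw [hT]
        refine (Pool.Agent.V11290.VW.hs_meas μ C σ hσ0 hσ1 hdec (N j) (S j) ((N j : ℝ) ^ (1 / σ)) (by positivity) (hsep j)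
          ((N j : ℝ) ^ (1 / ((i : ℝ) + 1))) (by positivity)).trans (ENNReal.ofReal_le_ofReal ?_)
        rw [Real.rpow_neg hNj.le, one_div ((N j : ℝ) ^ _)]
      have hsumm : ∑' j, μ (T j) ≠ ⊤ :=
        ne_top_of_le_ne_top (hsum _ hi).tsum_ofReal_ne_top (ENNReal.tsum_le_tsum hbound)
      filter_upwards [ae_finite_setOfPred_mem hsumm] with α hα
      refine hα.subset ?_
      intro j hj
      show α ∈ T j
      rw [hT]
      exact hj
    filter_upwards [key] with α hα ε hε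
    obtain ⟨i, hi⟩ := exists_nat_one_div_lt hε
    refine ((hα i).union (hcofin (max 1 ((1 + √(Pool.Agent.V11290.VW.K₀ C σ)) ^ (2 / ε))))).subset ?_
    intro j hj
    rw [Set.mem_ofPred_eq] at hj
    by_cases hsm : (N j : ℝ) < max 1 ((1 + √(Pool.Agent.V11290.VW.K₀ C σ)) ^ (2 / ε))
    · right
      exact hsm
    left
    rw [Set.mem_ofPred_eq]
    intro hHS
    apply hj
    rw [not_lt] at hsm
    have hN1 : (1 : ℝ) ≤ N j := (le_max_left _ _).trans hsm
    have hNj : (0 : ℝ) < N j := by linarith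
    have hR : (0 : ℝ) ≤ (S j).card := Nat.cast_nonneg _
    have hsq := Real.sqrt_nonneg (Pool.Agent.V11290.VW.K₀ C σ)
    have hbig : 1 + √(Pool.Agent.V11290.VW.K₀ C σ) ≤ (N j : ℝ) ^ (ε / 2) := by
      have h5 : (1 + √(Pool.Agent.V11290.VW.K₀ C σ)) ^ (2 / ε) ≤ N j := (le_max_right _ _).trans hsm
      calc 1 + √(Pool.Agent.V11290.VW.K₀ C σ) = ((1 + √(Pool.Agent.V11290.VW.K₀ C σ)) ^ (2 / ε)) ^ (ε / 2) := by
            rw [← Real.rpow_mul (by positivity)]
            have : 2 / ε * (ε / 2) = 1 := by field_simp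
            rw [this, Real.rpow_one]
        _ ≤ _ := Real.rpow_le_rpow (by positivity) h5 (by positivity)
    have g1 : √((N j : ℝ) ^ (1 / ((i : ℝ) + 1))) ≤ (N j : ℝ) ^ (ε / 2) := by
      rw [Real.sqrt_eq_rpow, ← Real.rpow_mul hNj.le]
      apply Real.rpow_le_rpow_of_exponent_le hN1
      linarith
    have g2 : ((N j : ℝ) ^ (1 / σ)) ^ (-(σ / 2)) = (N j : ℝ) ^ (-(1 / 2) : ℝ) := by
      rw [← Real.rpow_mul hNj.le]
      congr 1
      field_simp
    have g3 : (N j : ℝ) * (N j : ℝ) ^ (-(1 / 2) : ℝ) = √(N j) := by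
      rw [mul_comm, ← Real.rpow_add_one hNj.ne', Real.sqrt_eq_rpow]
      norm_num
    have g4 : ((S j).card : ℝ) ^ (1 - σ / 2) ≤ (S j).card := by
      rcases Nat.eq_zero_or_pos (S j).card with h0 | h0
      · rw [h0, Nat.cast_zero, Real.zero_rpow (by linarith)]
      · have h1 : (1 : ℝ) ≤ (S j).card := by exact_mod_cast h0
        calc ((S j).card : ℝ) ^ (1 - σ / 2) ≤ ((S j).card : ℝ) ^ (1 : ℝ) := Real.rpow_le_rpow_of_exponent_le h1 (by linarith)
          _ = _ := Real.rpow_one _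
    have hoff : √(Pool.Agent.V11290.VW.HS2 (N j) (S j) α) ≤ (S j).card * (N j : ℝ) ^ (1 / 2 + ε) := by
      refine hHS.trans ?_
      rw [g2]
      calc √((N j : ℝ) ^ (1 / ((i : ℝ) + 1))) * ((S j).card * √(N j) + √(Pool.Agent.V11290.VW.K₀ C σ) * N j *
              (N j : ℝ) ^ (-(1 / 2) : ℝ) * ((S j).card : ℝ) ^ (1 - σ / 2))
          = √((N j : ℝ) ^ (1 / ((i : ℝ) + 1))) * ((S j).card * √(N j) + √(Pool.Agent.V11290.VW.K₀ C σ) *
              √(N j) * ((S j).card : ℝ) ^ (1 - σ / 2)) := by rw [← g3]; ring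
        _ ≤ (N j : ℝ) ^ (ε / 2) * ((S j).card * √(N j) + √(Pool.Agent.V11290.VW.K₀ C σ) * √(N j) * (S j).card) := by
            apply mul_le_mul g1 _ (by positivity) (by positivity)
            have := mul_le_mul_of_nonneg_left g4 (show 0 ≤ √(Pool.Agent.V11290.VW.K₀ C σ) * √(N j) by positivity)
            linarith
        _ = (S j).card * √(N j) * (N j : ℝ) ^ (ε / 2) * (1 + √(Pool.Agent.V11290.VW.K₀ C σ)) := by ring
        _ ≤ (S j).card * √(N j) * (N j : ℝ) ^ (ε / 2) * (N j : ℝ) ^ (ε / 2) := mul_le_mul_of_nonneg_left hbig (by positivity)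
        _ = _ := by
            rw [Real.sqrt_eq_rpow, mul_assoc, mul_assoc, ← Real.rpow_add hNj, ← Real.rpow_add hNj]
            congr 2
            ring
    have hmain : ∀ (τ : ℝ) (a : ℕ → ℂ), ∑ s ∈ S j, ‖D (N j) a (τ + α * s)‖ ^ 2 ≤
        (N j + (S j).card * (N j : ℝ) ^ (1 / 2 + ε)) * ∑ n ∈ Icc 1 (N j), ‖a n‖ ^ 2 := by
      intro τ a
      refine (Pool.Agent.V11290.VW.dual_ls (N j) (S j) α τ a).trans ?_
      apply mul_le_mul_of_nonneg_right _ (sum_nonneg fun n _ => by positivity)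
      linarith
    refine ⟨hmain, fun τ a V ha hV hV2 hlarge => ?_⟩
    have h1 := hmain τ a
    have h2 : ∑ n ∈ Icc 1 (N j), ‖a n‖ ^ 2 ≤ N j := by
      calc ∑ n ∈ Icc 1 (N j), ‖a n‖ ^ 2 ≤ ∑ _n ∈ Icc 1 (N j), (1 : ℝ) := by
            apply sum_le_sum
            intro n _
            have := ha n
            have h0 := norm_nonneg (a n)
            nlinarith
        _ = N j := by rw [sum_const, Nat.card_Icc, Nat.add_sub_cancel, nsmul_eq_mul, mul_one]
    have h3 : (S j).card * V ^ 2 ≤ ∑ s ∈ S j, ‖D (N j) a (τ + α * s)‖ ^ 2 := by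
      rw [← nsmul_eq_mul]
      apply card_nsmul_le_sum
      intro s hs
      exact pow_le_pow_left₀ hV.le (hlarge s hs) 2
    have h4 : (N j : ℝ) * (N j : ℝ) ^ (1 / 2 + ε) = (N j : ℝ) ^ (3 / 2 + ε) := by
      rw [mul_comm, ← Real.rpow_add_one hNj.ne']
      congr 1
      ring
    have h5 : (S j).card * V ^ 2 ≤ (N j : ℝ) ^ 2 + (S j).card * (N j : ℝ) ^ (3 / 2 + ε) := by
      calc (S j).card * V ^ 2 ≤ (N j + (S j).card * (N j : ℝ) ^ (1 / 2 + ε)) * ∑ n ∈ Icc 1 (N j), ‖a n‖ ^ 2 := h3.trans h1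
        _ ≤ (N j + (S j).card * (N j : ℝ) ^ (1 / 2 + ε)) * N j := mul_le_mul_of_nonneg_left h2 (by positivity)
        _ = (N j : ℝ) ^ 2 + (S j).card * (N j * (N j : ℝ) ^ (1 / 2 + ε)) := by ring
        _ = _ := by rw [h4]
    have h6 : (S j).card * (N j : ℝ) ^ (3 / 2 + ε) ≤ (S j).card * (V ^ 2 / 2) :=
      mul_le_mul_of_nonneg_left (by linarith) hR
    rw [le_div_iff₀ (by positivity)]
    linarith

end Pool.Agent.Results.MP_a93a41_nt.FourierDecayDilates
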